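import Pool.Agent.W208.TL.All

set_option autoImplicit false

namespace Pool.Agent.Results.MP_0c9a68_nt.OneArbitraryFactor

open Finset Filter

/-- `1`-bounded multiplicative functions -/
def BMul (g : ℕ → ℂ) : Prop :=
  (∀ n, ‖g n‖ ≤ 1) ∧ g 1 = 1 ∧ ∀ m n : ℕ, Nat.Coprime m n → g (m * n) = g m * g n

/-- mean value zero in every residue class -/
def Aperiodic (f : ℕ → ℂ) : Prop := ∀ q r : ℕ, 1 ≤ q → Tendsto (fun X : ℕ =>
  (∑ n ∈ (Ioc 0 X).filter (fun n => n ≡ r [MOD q]), f n) / (X : ℂ)) atTop (nhds 0)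

/-- the twist `n ^ {i t}` -/
noncomputable def nit (t : ℝ) (n : ℕ) : ℂ := Complex.exp (Complex.I * (t * Real.log n : ℝ))

/-- close to `1` on the primes in `(X ^ (1 / K), X]`, for every fixed `K` -/
def Tame (u : ℕ → ℂ) : Prop := ∀ K : ℕ, 1 ≤ K → Tendsto (fun X : ℕ =>
  ∑ p ∈ (Icc 1 X).filter (fun p => p.Prime ∧ X < p ^ K), (1 - (u p).re) / p) atTop (nhds 0)

theorem result (k h0 : ℕ) (h : Fin k → ℕ) (hinj : Function.Injective h) (hne : ∀ j, h j ≠ h0)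
    (f : ℕ → ℂ) (hf : BMul f) (hap : Aperiodic f) (q : Fin k → ℕ) (hq : ∀ j, 1 ≤ q j)
    (χ : ∀ j, DirichletCharacter ℂ (q j)) (t : Fin k → ℝ) (u : Fin k → ℕ → ℂ)
    (hu : ∀ j, BMul (u j)) (htame : ∀ j, Tame (u j)) :
    Tendsto (fun X : ℕ => (∑ n ∈ Ioc 0 X, f (n + h0) * ∏ j, (χ j ((n + h j : ℕ) : ZMod (q j)) *
      nit (t j) (n + h j) * u j (n + h j))) / (X : ℂ)) atTop (nhds 0) :=
  Pool.Agent.W208.TL.ELL_all k h0 h hinj hne f hf hap q χ t u hq hu htame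

end Pool.Agent.Results.MP_0c9a68_nt.OneArbitraryFactor
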