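import Pool.Agent.H220M.Fin9
import Pool.Agent.H220M.M1
import Pool.Agent.H220M.M2
import Pool.Agent.H220M.M3
import Pool.Agent.H220M.M4a
import Pool.Agent.H220M.M4
import Pool.Agent.H220M.M5
import Pool.Agent.H220M.M6a
import Pool.Agent.H220M.M6b
import Pool.Agent.H220M.M6
import Pool.Agent.H220M.P2

/-!
# Correlations of almost every modification with arbitrary bounded functions

Let `v 0, v 1, …` be any sequence of bounded weights (for instance all the products
`g₂(n+h₂) ⋯ g_k(n+h_k)` of shifts of the members of a countable family of arbitrary bounded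
functions).  For almost every choice of signs on the thin set `Q` of primes, the modified
completely multiplicative function `f` satisfies `∑_{n ≤ x} v_s(n) ∏ f(a_i n + b_i) = o(x)` for all
`s` and all systems of pairwise non-proportional linear forms.
-/

set_option autoImplicit false

namespace Pool.Agent.Results.MP_0c9a68_nt.RandomFactorArbitraryRest

open Filter MeasureTheory Finset Pool.Agent.H220M

theorem result (g : ℕ →*₀ ℤ) (hg : ∀ p : ℕ, p.Prime → g p = 1 ∨ g p = -1)
    (Q : Set ℕ) (hQp : ∀ q ∈ Q, q.Prime) (hQ : Thick Q)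
    (v : ℕ → ℕ → ℝ) (hv : ∀ s n, |v s n| ≤ 1) :
    ∀ᵐ ω ∂coins, ∃! f : ℕ →*₀ ℤ, IsModif g Q ω f ∧
      ∀ (s k : ℕ) (a b : Fin k → ℕ), 1 ≤ k → (∀ i, 1 ≤ a i) →
        (∀ i j, i ≠ j → a i * b j ≠ a j * b i) →
        Tendsto (fun x : ℕ => (∑ n ∈ Icc 1 x, v s n * ∏ i, ((f (a i * n + b i) : ℤ) : ℝ)) / x)
          atTop (nhds 0) :=
  finalW (tM6 tC0 (tM5 tM1 tM2 tM3 (tM4 tP2 tM4a)) tM6a tM6b) g hg Q hQp hQ v hv

end Pool.Agent.Results.MP_0c9a68_nt.RandomFactorArbitraryRest
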