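import Pool.Agent.W208.TL.CoreA
import Pool.Agent.W208.TL.All

set_option autoImplicit false

namespace Pool.Agent.Results.MP_0c9a68_nt.SmoothParts

open Finset Filter

/-- `1`-bounded multiplicative functions -/
def BMul (g : ℕ → ℂ) : Prop :=
  (∀ n, ‖g n‖ ≤ 1) ∧ g 1 = 1 ∧ ∀ m n : ℕ, Nat.Coprime m n → g (m * n) = g m * g n

/-- mean value zero in every residue class -/
def Aperiodic (f : ℕ → ℂ) : Prop := ∀ q r : ℕ, 1 ≤ q → Tendsto (fun X : ℕ =>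
  (∑ n ∈ (Ioc 0 X).filter (fun n => n ≡ r [MOD q]), f n) / (X : ℂ)) atTop (nhds 0)

/-- the `y`-smooth part of `n` -/
noncomputable def smoothPart (y n : ℕ) : ℕ :=
  ∏ p ∈ (Ioc 0 y).filter Nat.Prime, p ^ n.factorization p

theorem kf_of_bmul {f : ℕ → ℂ} (hf : BMul f) : Pool.Agent.W208.TL.KF f := by
  refine ⟨hf.1, f, f, hf.1, hf.1, ?_⟩
  intro p n hp hn
  exact hf.2.2 p n ((Nat.Prime.coprime_iff_not_dvd hp).2 hn)

theorem result (k a h0 : ℕ) (h : Fin k → ℕ) (hk : 1 ≤ k) (ha : 1 ≤ a)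
    (hinj : Function.Injective h) (hne : ∀ j, h j ≠ h0) (ε : ℝ) (hε : 0 < ε) :
    ∃ A : ℕ, 1 ≤ A ∧ ∀ f : ℕ → ℂ, BMul f → Aperiodic f → ∃ X0 : ℕ, ∀ X : ℕ, X0 ≤ X →
      ∀ y : ℕ, y ^ A ≤ X → ∀ Φ : (Fin k → ℕ) → ℂ, (∀ d, ‖Φ d‖ ≤ 1) →
        ‖∑ n ∈ Ioc 0 X, f (a * n + h0) * Φ (fun j => smoothPart y (a * n + h j))‖ ≤ ε * X := by
  obtain ⟨A, hA, H⟩ := Pool.Agent.W208.TL.coreA Pool.Agent.W208.TL.ST_all k a h0 h hk ha hinj hne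
    ε hε
  exact ⟨A, hA, fun f hf hap => H f (kf_of_bmul hf) hap⟩

end Pool.Agent.Results.MP_0c9a68_nt.SmoothParts
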